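import Mathlib
import Pool.Agent.S07166

set_option autoImplicit false
set_option linter.constructorNameAsVariable false

/-!
The longest binary double-error-correcting codes of redundancy `8` have length `19`.
-/

namespace Pool.Agent.Results.MP_091b62_co.RedundancyEight

open Finset

/-! ### The code of length `19` -/

/-- The quadratic forms in four variables without squares, as words of length `16`. -/
def c0 (q : ℕ) : ℕ :=
  (0x7ee8f660de4856c0d4e85c607448fcc08ee806602e48a6c024e8ac6084480cc0b2e83a6012489ac018e89060b84830c042e8ca60e2486ac0e8e860604848c0c0be2836a01e88960014289ca0b4883c004e28c6a0ee886600e4286ca04488cc007228faa0d2885a00d82850a07888f00082280aa02288aa002828a0a088880000 >>> (16 * q)) % 65536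

/-- The words of the first order Reed-Muller code of length `16`. -/
def c2 (l : ℕ) : ℕ :=
  (0x966969963cc3c33c5aa5a55af00f0ff066999966cc3333ccaa5555aa00ffff0069699696c3c33c3ca5a55a5a0f0ff0f0999966663333cccc5555aaaaffff0000 >>> (16 * l)) % 65536

/-- The last three digits of the words of the code. -/
def tl (q : ℕ) : ℕ :=
  (0x7282b75610fee0cb93c459da3ba6251f346ca9ef018d7d48 >>> (3 * q)) % 8

/-- The nondegenerate forms, and the form `0`. -/
def nm (q : ℕ) : ℕ := (0x963c5af066ccaa01 >>> q) % 2

/-- The number of ones among the last `k` binary digits. -/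
def pc : ℕ → ℕ → ℕ
  | 0, _ => 0
  | k + 1, n => n % 2 + pc k (n / 2)

/-- All `i < n` have the property. -/
def allB : ℕ → (ℕ → Bool) → Bool
  | 0, _ => true
  | n + 1, f => f n && allB n f

theorem allB_spec {n : ℕ} {f : ℕ → Bool} (h : allB n f = true) : ∀ i < n, f i = true := by
  induction n with
  | zero => intro i hi; omega
  | succ n ih =>
    intro i hi
    rw [allB, Bool.and_eq_true] at h
    rcases Nat.lt_succ_iff_lt_or_eq.mp hi with h' | h'
    · exact ih h.2 i h'
    · rw [h']; exact h.1

theorem lin2_check : allB 32 (fun l => allB 32 (fun l' =>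
    Nat.beq (c2 l ^^^ c2 l') (c2 (l ^^^ l')))) = true := by decide +kernel

theorem lin0_check : allB 64 (fun l => allB 64 (fun l' =>
    Nat.beq (c0 l ^^^ c0 l') (c0 (l ^^^ l')))) = true := by decide +kernel

theorem weight_check : allB 64 (fun q => allB 32 (fun l =>
    (Nat.beq q 0 && Nat.beq l 0) ||
      Nat.ble (4 + nm q) (pc 16 (c0 q ^^^ c2 l)))) = true := by decide +kernel

theorem tail_check : allB 64 (fun q => allB 64 (fun q' =>
    Nat.ble 1 (nm (q ^^^ q') + pc 3 (tl q ^^^ tl q')))) = true := by decide +kernel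

theorem lin2 (l l' : ℕ) (h : l < 32) (h' : l' < 32) : c2 l ^^^ c2 l' = c2 (l ^^^ l') :=
  Nat.eq_of_beq_eq_true (allB_spec (allB_spec lin2_check l h) l' h')

theorem lin0 (l l' : ℕ) (h : l < 64) (h' : l' < 64) : c0 l ^^^ c0 l' = c0 (l ^^^ l') :=
  Nat.eq_of_beq_eq_true (allB_spec (allB_spec lin0_check l h) l' h')

theorem weight (q l : ℕ) (hq : q < 64) (hl : l < 32) (h : ¬ (q = 0 ∧ l = 0)) :
    4 + nm q ≤ pc 16 (c0 q ^^^ c2 l) := by
  have h1 := allB_spec (allB_spec weight_check q hq) l hl
  rw [Bool.or_eq_true, Bool.and_eq_true] at h1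
  rcases h1 with h1 | h1
  · exact absurd ⟨Nat.eq_of_beq_eq_true h1.1, Nat.eq_of_beq_eq_true h1.2⟩ h
  · exact Nat.le_of_ble_eq_true h1

theorem tail (q q' : ℕ) (hq : q < 64) (hq' : q' < 64) :
    1 ≤ nm (q ^^^ q') + pc 3 (tl q ^^^ tl q') :=
  Nat.le_of_ble_eq_true (allB_spec (allB_spec tail_check q hq) q' hq')

/-- The word with the binary digits of `a` (16 digits) and `b` (three digits). -/
def word (a b : ℕ) : Fin 19 → Bool :=
  fun i => if (i : ℕ) < 16 then a.testBit i else b.testBit (i - 16)

theorem pc_eq (k n : ℕ) : pc k n = ∑ i ∈ range k, (n.testBit i).toNat := by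
  induction k generalizing n with
  | zero => simp [pc]
  | succ k ih =>
    rw [pc, ih, Finset.sum_range_succ']
    have h : (n.testBit 0).toNat = n % 2 := by
      rw [Nat.testBit_zero]
      rcases Nat.mod_two_eq_zero_or_one n with h | h <;> simp [h]
    rw [h, add_comm]
    congr 1
    apply Finset.sum_congr rfl
    intro i _
    rw [Nat.testBit_succ]

theorem hamming_word (a b a' b' : ℕ) :
    hammingDist (word a b) (word a' b') = pc 16 (a ^^^ a') + pc 3 (b ^^^ b') := by
  rw [pc_eq, pc_eq, hammingDist, Finset.card_filter]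
  have h : ∀ i : Fin 19, (if word a b i ≠ word a' b' i then 1 else 0) =
      (fun j : ℕ => if j < 16 then ((a ^^^ a').testBit j).toNat
        else ((b ^^^ b').testBit (j - 16)).toNat) (i : ℕ) := by
    intro i
    unfold word
    by_cases hi : (i : ℕ) < 16
    · simp only [hi, if_true, Nat.testBit_xor]
      cases a.testBit i <;> cases a'.testBit i <;> rfl
    · simp only [hi, if_false, Nat.testBit_xor]
      cases b.testBit (i - 16) <;> cases b'.testBit (i - 16) <;> rfl
  rw [Finset.sum_congr rfl (fun i _ => h i),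
    Fin.sum_univ_eq_sum_range (fun j : ℕ => if j < 16 then ((a ^^^ a').testBit j).toNat
        else ((b ^^^ b').testBit (j - 16)).toNat) 19,
    show (19 : ℕ) = 16 + 3 from rfl, Finset.sum_range_add]
  have e1 : ∑ x ∈ range 16, (if x < 16 then ((a ^^^ a').testBit x).toNat
        else ((b ^^^ b').testBit (x - 16)).toNat) = ∑ i ∈ range 16, ((a ^^^ a').testBit i).toNat :=
    Finset.sum_congr rfl fun i hi => by rw [if_pos (mem_range.mp hi)]
  have e2 : ∑ x ∈ range 3, (if 16 + x < 16 then ((a ^^^ a').testBit (16 + x)).toNat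
        else ((b ^^^ b').testBit (16 + x - 16)).toNat) =
      ∑ i ∈ range 3, ((b ^^^ b').testBit i).toNat :=
    Finset.sum_congr rfl fun i _ => by rw [if_neg (by omega), Nat.add_sub_cancel_left]
  exact congrArg₂ (· + ·) e1 e2

theorem code_dist (x y : Fin 64 × Fin 32) (h : x ≠ y) :
    5 ≤ hammingDist (word (c0 x.1 ^^^ c2 x.2) (tl x.1)) (word (c0 y.1 ^^^ c2 y.2) (tl y.1)) := by
  rw [hamming_word]
  have e : (c0 x.1 ^^^ c2 x.2) ^^^ (c0 y.1 ^^^ c2 y.2) =
      c0 ((x.1 : ℕ) ^^^ (y.1 : ℕ)) ^^^ c2 ((x.2 : ℕ) ^^^ (y.2 : ℕ)) := by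
    rw [← lin2 _ _ x.2.2 y.2.2, ← lin0 _ _ x.1.2 y.1.2]
    ac_rfl
  have xz : ∀ a b : ℕ, a ^^^ b = 0 → a = b := by
    intro a b hab
    have := congrArg (· ^^^ b) hab
    simpa [Nat.xor_assoc] using this
  have h1 : 4 + nm ((x.1 : ℕ) ^^^ (y.1 : ℕ)) ≤
      pc 16 (c0 ((x.1 : ℕ) ^^^ (y.1 : ℕ)) ^^^ c2 ((x.2 : ℕ) ^^^ (y.2 : ℕ))) := by
    apply weight
    · exact Nat.xor_lt_two_pow (n := 6) x.1.2 y.1.2
    · exact Nat.xor_lt_two_pow (n := 5) x.2.2 y.2.2
    · rintro ⟨h1, h2⟩
      exact h (Prod.ext (Fin.ext (xz _ _ h1)) (Fin.ext (xz _ _ h2)))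
  have h2 := tail x.1 y.1 x.1.2 y.1.2
  rw [e]
  omega

/-- The code. -/
def code : Finset (Fin 19 → Bool) :=
  (univ : Finset (Fin 64 × Fin 32)).image fun x => word (c0 x.1 ^^^ c2 x.2) (tl x.1)

theorem code_card : code.card = 2048 := by
  unfold code
  rw [Finset.card_image_of_injective]
  · simp
  · intro x y hxy
    by_contra h
    have := code_dist x y h
    dsimp only at hxy
    rw [hxy, hammingDist_self] at this
    omega

theorem code_min : ∀ x ∈ code, ∀ y ∈ code, x ≠ y → 5 ≤ hammingDist x y := by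
  intro x hx y hy h
  unfold code at hx hy
  rw [mem_image] at hx hy
  obtain ⟨a, -, rfl⟩ := hx
  obtain ⟨b, -, rfl⟩ := hy
  exact code_dist a b fun hab => h (by rw [hab])

/-! ### The upper bound -/

theorem dist_tail {n : ℕ} (x y : Fin (n + 1) → Bool) (h : x 0 = y 0) :
    hammingDist x y ≤ hammingDist (fun i : Fin n => x i.succ) (fun i : Fin n => y i.succ) := by
  unfold hammingDist
  have h1 : (univ.filter fun i => x i ≠ y i) ⊆
      (univ.filter fun i : Fin n => x i.succ ≠ y i.succ).map (Fin.succEmb n) := by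
    intro i hi
    rw [mem_filter] at hi
    rw [mem_map]
    rcases Fin.eq_zero_or_eq_succ i with rfl | ⟨j, rfl⟩
    · exact absurd h hi.2
    · exact ⟨j, by simpa using hi.2, rfl⟩
  have h2 := card_le_card h1
  rwa [card_map] at h2

/-- The length, the minimum distance and the size of a double-error-correcting code. -/
def IsCode {n : ℕ} (C : Finset (Fin n → Bool)) : Prop :=
  ∀ x ∈ C, ∀ y ∈ C, x ≠ y → 5 ≤ hammingDist x y

theorem upper (k : ℕ) : ∀ C : Finset (Fin (20 + k) → Bool), IsCode C → C.card < 2 ^ (12 + k) := by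
  induction k with
  | zero =>
    intro C hC
    by_contra h
    have h4 : 4096 ≤ C.card := by simpa using not_lt.mp h
    obtain ⟨D, hD, hc⟩ := Finset.exists_subset_card_eq h4
    exact Pool.Agent.S07166.result ⟨D, hc, fun x hx y hy hxy => hC x (hD hx) y (hD hy) hxy⟩
  | succ k ih =>
    intro C hC
    have hb : ∀ b : Bool, (C.filter fun x => x 0 = b).card < 2 ^ (12 + k) := by
      intro b
      have hinj : Set.InjOn (fun (x : Fin (20 + (k + 1)) → Bool) (i : Fin (20 + k)) => x i.succ)
          (C.filter fun x => x 0 = b : Finset _) := by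
        intro x hx y hy hxy
        rw [mem_coe, mem_filter] at hx hy
        funext i
        rcases Fin.eq_zero_or_eq_succ i with rfl | ⟨j, rfl⟩
        · exact hx.2.trans hy.2.symm
        · exact congrFun hxy j
      rw [← Finset.card_image_of_injOn hinj]
      apply ih
      intro x hx y hy hxy
      rw [mem_image] at hx hy
      obtain ⟨x, hx, rfl⟩ := hx
      obtain ⟨y, hy, rfl⟩ := hy
      rw [mem_filter] at hx hy
      have hne : x ≠ y := fun h => hxy (by rw [h])
      exact (hC x hx.1 y hy.1 hne).trans (dist_tail x y (hx.2.trans hy.2.symm))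
    have h1 := Finset.card_filter_add_card_filter_not (s := C) (fun x => x 0 = true)
    have h2 : (C.filter fun x => ¬ x 0 = true) = C.filter fun x => x 0 = false := by
      apply Finset.filter_congr
      intro x _
      simp
    rw [h2] at h1
    have h3 := hb true
    have h4 := hb false
    have h5 : 2 ^ (12 + (k + 1)) = 2 ^ (12 + k) + 2 ^ (12 + k) := by
      rw [← add_assoc, pow_succ]; ring
    omega

/-- The code `C` (a nonempty set of binary words of length `n`) is double-error-correcting (minimum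
distance at least `5`) and its redundancy `n - log₂ |C|` is `r`. -/
def HasRedundancy {n : ℕ} (C : Finset (Fin n → Bool)) (r : ℝ) : Prop :=
  C.Nonempty ∧ (∀ x ∈ C, ∀ y ∈ C, x ≠ y → 5 ≤ hammingDist x y) ∧ (n : ℝ) - Real.logb 2 C.card = r

/-- The largest length of a binary double-error-correcting code of redundancy `8` is `19`; there is
such a code of length `19` with `2048` words, and all binary double-error-correcting codes of length
`n ≥ 20` have redundancy greater than `8`. -/
theorem result :
    IsGreatest {n : ℕ | ∃ C : Finset (Fin n → Bool), HasRedundancy C 8} 19 ∧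
    ∀ n : ℕ, 20 ≤ n → ∀ (C : Finset (Fin n → Bool)) (r : ℝ), HasRedundancy C r → 8 < r := by
  have key : ∀ n : ℕ, 20 ≤ n → ∀ (C : Finset (Fin n → Bool)) (r : ℝ), HasRedundancy C r →
      8 < r := by
    intro n hn C r hC
    obtain ⟨k, rfl⟩ := Nat.exists_eq_add_of_le hn
    obtain ⟨h1, h2, h3⟩ := hC
    have h4 := upper k C h2
    have h5 : (0 : ℝ) < C.card := by exact_mod_cast h1.card_pos
    have h6 : Real.logb 2 C.card < ((12 + k : ℕ) : ℝ) := by
      rw [Real.logb_lt_iff_lt_rpow (by norm_num) h5, Real.rpow_natCast]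
      exact_mod_cast h4
    push_cast at h6 h3
    linarith
  refine ⟨⟨⟨code, ?_, code_min, ?_⟩, ?_⟩, key⟩
  · rw [← Finset.card_pos, code_card]; norm_num
  · rw [code_card]
    have : ((2048 : ℕ) : ℝ) = (2 : ℝ) ^ (11 : ℕ) := by norm_num
    rw [this, Real.logb_pow, Real.logb_self_eq_one (by norm_num)]
    norm_num
  · rintro n ⟨C, hC⟩
    by_contra h
    have := key n (by omega) C 8 hC
    exact lt_irrefl _ this

end Pool.Agent.Results.MP_091b62_co.RedundancyEight
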